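import Pool.Agent.H88.MC.All

/-!
# Maximum cut in polynomial space, with time governed by the number of balanced bipartitions

The machines are the multi-tape machines `Turing.FinTM2` of Mathlib with all tapes (stacks) binary
(`Binary`).  The input is the code `unary (gcode G)` of a graph `G` on the vertices `0, …, n-1`:
the number of vertices in unary, then the adjacency matrix row by row.  `RunsWithin tm _ _ x y T S`
says that `tm`, started with `x`, halts with output `y` after at most `T` steps and that until then
the total length of all stacks is at most `S`.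
-/

set_option autoImplicit false

namespace Pool.Agent.Results.MP_399a09_lc.BalancedBipartitions

open Pool.Agent.H88.MC Finset Turing Polynomial

open scoped Classical in
/-- For every `K ≥ 1` there are `ε > 0`, one machine and one polynomial `p` such that the machine
outputs a maximum cut of EVERY graph `G` in space `p n` (`n` the number of vertices), and

* the time is at most `p n (2^((1-ε) n) + N)`, where `N` is the number of bipartitions of the
  vertices such that for all but `n/K` vertices `v` the numbers of neighbours of `v` on the two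
  sides differ by at most `(1 + deg v)^(1/2) / K`;
* the time is at most `p n 2^((1-ε) n)` if at least `n/K` of the singular values of the normalised
  adjacency matrix are at least `K^(-1/2)` (`Spec`);
* the same if at least `n/K` vertices are not isolated and
  `∑ codeg(u,v)² / ((1 + deg u) (1 + deg v)) ≤ K n` (few cycles of length four);
* the same for all but a fraction `2^(-ε n)` of the graphs `G` which agree with `H` outside `F`,
  for every graph `H` and every set of pairs `F` with at least `n² / (2 K)` elements (semi-random
  graphs: only the pairs in `F` are random). -/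
theorem result : ∀ K : ℝ, 1 ≤ K → ∃ ε : ℝ, 0 < ε ∧ ∃ (tm : FinTM2) (ei : tm.Γ tm.k₀ ≃ Bool)
    (eo : tm.Γ tm.k₁ ≃ Bool) (p : ℕ[X]), Binary tm ∧
    (∀ (n : ℕ) (G : SimpleGraph (Fin n)),
      FindsMaxCut tm ei eo G (p.eval n * (2 ^ ((1 - ε) * n) + numBal (1 / K) G))
        (p.eval n)) ∧
    (∀ (n : ℕ) (G : SimpleGraph (Fin n)), Spec (1 / K) G →
      FindsMaxCut tm ei eo G (p.eval n * 2 ^ ((1 - ε) * n)) (p.eval n)) ∧
    (∀ (n : ℕ) (G : SimpleGraph (Fin n)), (n : ℝ) ≤ K * #{v | 0 < dg G v} →
      ∑ u, ∑ v, (#(nb G u ∩ nb G v) : ℝ) ^ 2 / ((1 + dg G u) * (1 + dg G v)) ≤ K * n →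
      FindsMaxCut tm ei eo G (p.eval n * 2 ^ ((1 - ε) * n)) (p.eval n)) ∧
    (∀ (n : ℕ) (F H : SimpleGraph (Fin n)), (n : ℝ) ^ 2 ≤ K * ∑ v, dg F v →
      (#{G : SimpleGraph (Fin n) | Agree F H G ∧
        ¬ FindsMaxCut tm ei eo G (p.eval n * 2 ^ ((1 - ε) * n)) (p.eval n)} : ℝ) ≤
      2 ^ (-(ε * n)) * #{G : SimpleGraph (Fin n) | Agree F H G}) :=
  final a_hs a_ex a_ct a_pa a_cs a_lo a_sp a_c4 a_sm

end Pool.Agent.Results.MP_399a09_lc.BalancedBipartitions
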