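import Pool.Agent.H79.MC.Main

/-!
# Maximum cut in polynomial space (MP_399a09_lc)

Graphs with few near-optimal cuts.
-/

namespace Pool.Agent.Results.MP_399a09_lc.FewNearOptimalCuts

open Pool.Agent.H79.MC

/-- For all `η, c > 0` there are `γ > 0`, `C` and one program `p` of a word random access machine
such that, for every graph `G` with `n` vertices and `m` edges, `p` stops on `G` after at most
`C (n+1)^C 2^((1-γ)n)` steps, all numbers that occur (addresses, contents and intermediate values)
are at most `C (n+1)^C`, and, if at most `2^((1-c)n)` vertex sets `X` cut at least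
`mc(G) - η √(mn)` edges, then the output is a maximum cut of `G`. -/
theorem result :
    ∀ η c : ℝ, 0 < η → 0 < c → ∃ (γ : ℝ) (C : ℕ) (p : Prog), 0 < γ ∧
      ∀ (n : ℕ) (G : SimpleGraph (Fin n)), ∃ (t : ℕ) (s : St),
        Run (C * (n + 1) ^ C) p (input G) t s ∧
        (t : ℝ) ≤ C * ((n : ℝ) + 1) ^ C * 2 ^ ((1 - γ) * n) ∧
        ((({X : Set (Fin n) | (maxCut G : ℝ) - η * Real.sqrt (edges G * n) ≤
            cutSize G X}.ncard : ℕ) : ℝ) ≤ 2 ^ ((1 - c) * n) →
          IsMaxCut G (output n s)) := by
  intro η c hη hc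
  obtain ⟨γ, C, p, hγ, h⟩ := c_th1 η c hη hc
  exact ⟨γ, C, p, hγ, fun n G => h n G⟩

/-- The machine is deterministic: final state and number of steps are unique. -/
theorem run_unique : T_DET := c_det

end Pool.Agent.Results.MP_399a09_lc.FewNearOptimalCuts
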