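import Pool.Agent.H97.MC.All

/-!
# Maximum cut in polynomial space and time `2^((1-γ)n)` on near-regular graphs

The machine is a word random access machine (`Prog`, `Run` in `Pool.Agent.H79.MC.Defs`): structured
programs over registers and arrays; `Run W p s t s'` says that `p` started in `s` stops after `t`
steps in `s'` and that all numbers (contents, addresses, intermediate values) are at most `W`.
`input G` is the adjacency matrix of `G`, `output n s` the set of vertices marked in array `1`.
-/

set_option autoImplicit false

namespace Pool.Agent.Results.MP_399a09_lc.NearRegularGraphs

open Pool.Agent.H79.MC Pool.Agent.H97.MC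

/-- For every `K` one program stops on every graph with `n` vertices after at most
`C (n+1)^C 2^((1-γ)n)` steps, with all numbers at most `C (n+1)^C`, and its output is a maximum cut
for all graphs with hereditary surplus (every `G[S]`, `|S| ≥ (1 - 1/K) n`, has a cut with at least
`e(S)/2 + √(m n)/K` edges), and for all graphs of maximum degree at most `K` times the average
degree `2m/n` which have at most `K n (2m/n)^(3/2)` triangles, or energy at least `√(2mn)/K`, or
whose adjacency matrix is not close to a matrix of rank at most `n/K`. -/
theorem result (K : ℝ) (hK : 1 ≤ K) :
    ∃ (γ : ℝ) (C : ℕ) (p : Prog), 0 < γ ∧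
      Solves γ C p fun n G =>
        HerSurplus K n G ∨
        NearRegular K G ∧
          ((triangles G : ℝ) ≤ K * n * (2 * edges G / n) ^ ((3 : ℝ) / 2) ∨
            Real.sqrt (2 * edges G * n) / K ≤ energy G ∨
            FarLowRank K G) :=
  all K hK

end Pool.Agent.Results.MP_399a09_lc.NearRegularGraphs
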