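import Pool.Agent.H79.MC.Main2

/-!
# Maximum cut in polynomial space (MP_399a09_lc)

Graphs whose optimum is far from all fractional points with small coordinates.
-/

namespace Pool.Agent.Results.MP_399a09_lc.RobustOptimum

open Pool.Agent.H79.MC

/-- For every `κ > 0` there are `γ > 0`, `C` and one program `p` of a word random access machine
such that, for every graph `G` with `n` vertices, `m` edges and adjacency matrix `A`, `p` stops on
`G` after at most `C (n+1)^C 2^((1-γ)n)` steps, all numbers that occur (addresses, contents and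
intermediate values) are at most `C (n+1)^C`, and, if `zᵀAz ≥ 2m - 4mc(G) + κ √(mn)` for all
`z ∈ [-1,1]^n` with `|z|² ≤ κn`, then the output is a maximum cut of `G`. -/
theorem result :
    ∀ κ : ℝ, 0 < κ → ∃ (γ : ℝ) (C : ℕ) (p : Prog), 0 < γ ∧
      ∀ (n : ℕ) (G : SimpleGraph (Fin n)), ∃ (t : ℕ) (s : St),
        Run (C * (n + 1) ^ C) p (input G) t s ∧
        (t : ℝ) ≤ C * ((n : ℝ) + 1) ^ C * 2 ^ ((1 - γ) * n) ∧
        ((∀ z : Fin n → ℝ, (∀ v, |z v| ≤ 1) → ∑ v, z v ^ 2 ≤ κ * n →
            2 * (edges G : ℝ) - 4 * maxCut G + κ * Real.sqrt (edges G * n) ≤ phi G z) →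
          IsMaxCut G (output n s)) := by
  intro κ hκ
  obtain ⟨γ, C, p, hγ, h⟩ := c_th2 κ hκ
  exact ⟨γ, C, p, hγ, fun n G => h n G⟩

end Pool.Agent.Results.MP_399a09_lc.RobustOptimum
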